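import Pool.Agent.Helper7.ER.Ham
import Pool.Agent.Helper59.MixInt.Schur

/-!
# The bound for the pair sum
-/

set_option autoImplicit false

noncomputable section

namespace Pool.Agent.Helper7.ER

open Finset
open Pool.Agent.Helper59.MixInt (rho CS CS_pos sum_rho_le)

/-- `A_c`: the squared length of the mean of `e_t` over dyadic intervals of level `c` -/
def aa : ℕ → ℝ → ℕ → ℝ
  | M, t, 0 => Q M t
  | M + 1, t, c + 1 => aa M (t / 2) c
  | 0, _, _ + 1 => 1

theorem Q_nonneg (M : ℕ) : ∀ t, 0 ≤ Q M t := by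
  induction M with
  | zero => intro t; simp [Q]
  | succ M ih =>
    intro t
    simp only [Q]
    exact mul_nonneg (sq_nonneg _) (ih _)

theorem Q_succ_le (M : ℕ) (t : ℝ) : Q (M + 1) t ≤ Q M (t / 2) := by
  simp only [Q]
  have h1 : Real.cos (Real.pi * t / 2) ^ 2 ≤ 1 := by
    have := Real.sin_sq_add_cos_sq (Real.pi * t / 2)
    nlinarith [sq_nonneg (Real.sin (Real.pi * t / 2))]
  have := mul_le_mul_of_nonneg_right h1 (Q_nonneg M (t / 2))
  linarith

theorem Q_le_one (M : ℕ) : ∀ t, Q M t ≤ 1 := by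
  induction M with
  | zero => intro t; simp [Q]
  | succ M ih =>
    intro t
    exact (Q_succ_le M t).trans (ih _)

theorem aa_nonneg (M : ℕ) : ∀ (t : ℝ) (c : ℕ), 0 ≤ aa M t c := by
  induction M with
  | zero =>
    intro t c
    rcases c with _ | c
    · exact Q_nonneg 0 t
    · simp [aa]
  | succ M ih =>
    intro t c
    rcases c with _ | c
    · exact Q_nonneg _ t
    · exact ih _ _

theorem aa_le_one (M : ℕ) : ∀ (t : ℝ) (c : ℕ), aa M t c ≤ 1 := by
  induction M with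
  | zero =>
    intro t c
    rcases c with _ | c
    · exact Q_le_one 0 t
    · simp [aa]
  | succ M ih =>
    intro t c
    rcases c with _ | c
    · exact Q_le_one _ t
    · exact ih _ _

theorem aa_mono (M : ℕ) : ∀ (t : ℝ) (c : ℕ), aa M t c ≤ aa M t (c + 1) := by
  induction M with
  | zero =>
    intro t c
    rcases c with _ | c
    · exact Q_le_one 0 t
    · simp [aa]
  | succ M ih =>
    intro t c
    rcases c with _ | c
    · have h1 : aa (M + 1) t 0 = Q (M + 1) t := by simp [aa]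
      have h2 : aa (M + 1) t (0 + 1) = Q M (t / 2) := by simp [aa]
      rw [h1, h2]
      exact Q_succ_le M t
    · exact ih _ _

theorem rr_eq (M : ℕ) : ∀ (t : ℝ) (c : ℕ), rr M t c = 2 * aa M t c - aa M t (c + 1) := by
  induction M with
  | zero =>
    intro t c
    rcases c with _ | c
    · simp [rr, aa, Q]
      norm_num
    · simp [rr, aa]
      norm_num
  | succ M ih =>
    intro t c
    rcases c with _ | c
    · have h1 : aa (M + 1) t 0 = Q (M + 1) t := by simp [aa]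
      have h2 : aa (M + 1) t (0 + 1) = Q M (t / 2) := by simp [aa]
      rw [h1, h2]
      simp only [rr, Q]
      have : Real.cos (Real.pi * t) = 2 * Real.cos (Real.pi * t / 2) ^ 2 - 1 := by
        rw [← Real.cos_two_mul]
        congr 1
        ring
      rw [this]
      ring
    · have h1 : rr (M + 1) t (c + 1) = rr M (t / 2) c := rfl
      have h2 : aa (M + 1) t (c + 1) = aa M (t / 2) c := rfl
      have h3 : aa (M + 1) t (c + 1 + 1) = aa M (t / 2) (c + 1) := rfl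
      rw [h1, h2, h3, ih]

theorem Q_ge (M : ℕ) : ∀ t, 1 - Q M t ≤ 4 * t ^ 2 := by
  induction M with
  | zero =>
    intro t
    simp only [Q, sub_self]
    positivity
  | succ M ih =>
    intro t
    have h1 := ih (t / 2)
    have h2 := Q_nonneg M (t / 2)
    have h3 := Q_le_one M (t / 2)
    have h4 := Real.sin_sq_add_cos_sq (Real.pi * t / 2)
    have h5 : Real.sin (Real.pi * t / 2) ^ 2 ≤ (Real.pi * t / 2) ^ 2 := Real.sin_sq_le_sq
    have h6 : (Real.pi * t / 2) ^ 2 ≤ 5 / 2 * t ^ 2 := by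
      have : Real.pi ^ 2 ≤ 10 := by
        have := Real.pi_lt_d2
        nlinarith [Real.pi_pos]
      nlinarith [sq_nonneg t]
    simp only [Q]
    nlinarith [sq_nonneg (Real.sin (Real.pi * t / 2)), sq_nonneg (Real.cos (Real.pi * t / 2))]

theorem aa_ge (M : ℕ) : ∀ (t : ℝ) (c : ℕ), 1 - aa M t c ≤ 4 * (t / 2 ^ c) ^ 2 := by
  induction M with
  | zero =>
    intro t c
    rcases c with _ | c
    · have h1 : aa 0 t 0 = Q 0 t := by simp [aa]
      rw [h1]
      simpa using Q_ge 0 t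
    · simp only [aa, sub_self]
      positivity
  | succ M ih =>
    intro t c
    rcases c with _ | c
    · have h1 : aa (M + 1) t 0 = Q (M + 1) t := by simp [aa]
      rw [h1]
      simpa using Q_ge (M + 1) t
    · have h2 : aa (M + 1) t (c + 1) = aa M (t / 2) c := rfl
      rw [h2]
      have e : t / 2 / 2 ^ c = t / 2 ^ (c + 1) := by rw [div_div, ← pow_succ']
      rw [← e]
      exact ih (t / 2) c

theorem Q_int (M : ℕ) : ∀ h : ℤ, h ≠ 0 → |h| < 2 ^ M → Q M (h : ℝ) = 0 := by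
  induction M with
  | zero =>
    intro h h0 h1
    exfalso
    have := abs_pos.2 h0
    simp at h1
    omega
  | succ M ih =>
    intro h h0 h1
    simp only [Q]
    rcases Int.even_or_odd' h with ⟨k, hk | hk⟩
    · have e : ((h : ℤ) : ℝ) / 2 = (k : ℝ) := by
        rw [hk]
        push_cast
        ring
      rw [e, ih k, mul_zero]
      · rintro rfl
        simp at hk
        exact h0 hk
      · rw [hk, abs_mul, pow_succ] at h1
        have : |(2 : ℤ)| = 2 := by norm_num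
        rw [this] at h1
        omega
    · have e : Real.cos (Real.pi * (h : ℝ) / 2) = 0 := by
        rw [Real.cos_eq_zero_iff]
        refine ⟨k, ?_⟩
        rw [hk]
        push_cast
        ring
      rw [e]
      simp

theorem Q_zero (M : ℕ) : Q M 0 = 1 := by
  induction M with
  | zero => rfl
  | succ M ih => simp [Q, ih]

theorem aa_zero (M : ℕ) : ∀ c : ℕ, aa M 0 c = 1 := by
  induction M with
  | zero =>
    intro c
    rcases c with _ | c
    · exact Q_zero 0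
    · simp [aa]
  | succ M ih =>
    intro c
    rcases c with _ | c
    · exact Q_zero _
    · have h2 : aa (M + 1) 0 (c + 1) = aa M (0 / 2) c := rfl
      rw [h2, zero_div, ih]

theorem rr_zero (M : ℕ) : rr M 0 = fun _ => 1 := by
  funext c
  rw [rr_eq, aa_zero, aa_zero]
  norm_num

/-- `min 1 (4 u²) ≤ 4 u ^ (2 k)` -/
theorem g_le {k u z : ℝ} (hk : 1 / 2 < k) (hk1 : k < 1) (hu : 0 < u) (h1 : z ≤ 1) (h2 : z ≤ 4 * u ^ 2) :
    z ≤ 4 * u ^ (2 * k) := by
  rcases le_total u 1 with h | h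
  · have : u ^ (2 : ℝ) ≤ u ^ (2 * k) := Real.rpow_le_rpow_of_exponent_ge hu h (by linarith)
    rw [Real.rpow_two] at this
    linarith
  · have : 1 ≤ u ^ (2 * k) := Real.one_le_rpow h (by linarith)
    linarith

theorem g_le' {u z : ℝ} (h1 : z ≤ 1) (h2 : z ≤ 4 * u ^ 2) : z ≤ 8 * (u ^ 2 / (1 + u ^ 2)) := by
  rw [mul_div_assoc', le_div_iff₀ (by positivity)]
  rcases le_total (u ^ 2) 1 with h | h
  · nlinarith [sq_nonneg u]
  · nlinarith [sq_nonneg u]

/-- one term of the sum -/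
theorem term_le {k x y z z' : ℝ} (hk : 1 / 2 < k) (hk1 : k < 1) (hx : 0 < x) (hy : 0 < y) {m j : ℕ} (hj : j < m)
    (h0 : 0 ≤ z) (h1 : z ≤ 1) (h2 : z ≤ 4 * (x / 2 ^ (m - 1 - j)) ^ 2) (h0' : 0 ≤ z') (h1' : z' ≤ 1)
    (h2' : z' ≤ 4 * (y / 2 ^ j) ^ 2) :
    z * z' ≤ 32 * (x * y / 2 ^ (m - 1)) ^ (2 * k) * rho k (4 ^ (m - 1) / x ^ 2) j := by
  have g1 := g_le' h1 h2
  have g2 := g_le hk hk1 (u := y / 2 ^ j) (by positivity) h1' h2'
  set p := m - 1 - j with hp
  have hm : m - 1 = p + j := by omega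
  set v := (x / 2 ^ p) ^ 2 with hv
  have hv0 : 0 < v := by positivity
  have e1 : (4 : ℝ) ^ (m - 1) / x ^ 2 / 4 ^ j = 1 / v := by
    rw [hm, hv, pow_add, div_pow, ← pow_mul, mul_comm p 2, pow_mul]
    norm_num
    field_simp
  have e2 : y / 2 ^ j = (x * y / 2 ^ (m - 1)) * v ^ (-(1 / 2 : ℝ)) := by
    have : v ^ (-(1 / 2 : ℝ)) = (x / 2 ^ p)⁻¹ := by
      rw [hv, Real.rpow_neg (by positivity), ← Real.sqrt_eq_rpow, Real.sqrt_sq (by positivity)]
    rw [this, hm, pow_add]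
    field_simp
  have e3 : (y / 2 ^ j) ^ (2 * k) = (x * y / 2 ^ (m - 1)) ^ (2 * k) * v ^ (-k) := by
    rw [e2, Real.mul_rpow (by positivity) (by positivity), ← Real.rpow_mul hv0.le]
    congr 2
    ring
  have e4 : rho k (4 ^ (m - 1) / x ^ 2) j = v ^ (-k) * (v / (1 + v)) := by
    unfold rho
    rw [e1, one_div, Real.inv_rpow hv0.le, ← Real.rpow_neg hv0.le]
    field_simp
    ring
  rw [e4]
  have hA : 0 ≤ (x * y / 2 ^ (m - 1)) ^ (2 * k) := by positivity
  have hvk : 0 ≤ v ^ (-k) := by positivity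
  calc z * z' ≤ (8 * (v / (1 + v))) * (4 * (y / 2 ^ j) ^ (2 * k)) :=
        mul_le_mul g1 g2 h0' (by positivity)
    _ = 32 * (x * y / 2 ^ (m - 1)) ^ (2 * k) * (v ^ (-k) * (v / (1 + v))) := by
        rw [e3]
        ring

/-- the constant -/
def CC (k : ℝ) : ℝ := 4 + 256 * CS k

theorem CC_pos {k : ℝ} (hk1 : k < 1) : 0 < CC k := by
  have := CS_pos hk1
  unfold CC
  linarith

theorem sq_rpow {k : ℝ} (x : ℝ) (hx : 0 ≤ x) : (x ^ 2) ^ k = x ^ (2 * k) := by
  rw [← Real.rpow_natCast, ← Real.rpow_mul hx]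
  norm_num

/-- **the pair sum** -/
theorem WW_bound {k : ℝ} (hk : 1 / 2 < k) (hk1 : k < 1) {m M : ℕ} {h₁ h₂ : ℤ} (hh : h₁ ≠ 0 ∨ h₂ ≠ 0)
    (hM1 : |h₁| < 2 ^ M) (hM2 : |h₂| < 2 ^ M) :
    WW m (rr M h₁) (rr M h₂) ≤
      CC k * ((1 + (h₁ : ℝ) ^ 2) ^ k * (1 + (h₂ : ℝ) ^ 2) ^ k) / (2 ^ m) ^ (2 * k) := by
  have hCS := CS_pos hk1
  have hN : (0 : ℝ) < (2 ^ m) ^ (2 * k) := by positivity
  have w1 : ∀ h : ℤ, (1 : ℝ) ≤ (1 + (h : ℝ) ^ 2) ^ k := fun h =>
    Real.one_le_rpow (by nlinarith [sq_nonneg (h : ℝ)]) (by linarith)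
  have w2 : ∀ h : ℤ, |(h : ℝ)| ^ (2 * k) ≤ (1 + (h : ℝ) ^ 2) ^ k := by
    intro h
    rw [← sq_rpow _ (abs_nonneg _), sq_abs]
    exact Real.rpow_le_rpow (by positivity) (by linarith) (by linarith)
  have one : ∀ h : ℤ, h ≠ 0 → 1 - aa M h m ≤ 4 * |(h : ℝ)| ^ (2 * k) / (2 ^ m) ^ (2 * k) := by
    intro h h0
    have h1 : 0 < |(h : ℝ)| := abs_pos.2 (by exact_mod_cast h0)
    have h2 := g_le hk hk1 (u := |(h : ℝ)| / 2 ^ m) (z := 1 - aa M h m) (by positivity)
      (by linarith [aa_nonneg M (h : ℝ) m])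
      (by rw [div_pow, sq_abs, ← div_pow]; exact aa_ge M (h : ℝ) m)
    rw [Real.div_rpow h1.le (by positivity)] at h2
    rw [mul_div_assoc]
    exact h2
  have rre : ∀ h : ℤ, rr M h = fun c => 2 * aa M h c - aa M h (c + 1) := fun h => funext fun c => rr_eq M h c
  have q0 : ∀ h : ℤ, h ≠ 0 → |h| < 2 ^ M → aa M h 0 = 0 := by
    intro h h0 h1
    have : aa M h 0 = Q M h := by
      cases M <;> simp [aa]
    rw [this]
    exact Q_int M h h0 h1
  by_cases z1 : h₁ = 0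
  · have z2 : h₂ ≠ 0 := by
      rcases hh with h | h
      · exact absurd z1 h
      · exact h
    subst z1
    rw [Int.cast_zero, rr_zero, rre h₂, WW_one_left, q0 h₂ z2 hM2]
    have h1 := one h₂ z2
    have h2 : 4 * |(h₂ : ℝ)| ^ (2 * k) ≤ CC k * ((1 + (0 : ℝ) ^ 2) ^ k * (1 + (h₂ : ℝ) ^ 2) ^ k) := by
      have e : (1 + (0 : ℝ) ^ 2) ^ k = 1 := by norm_num
      rw [e, one_mul]
      have := w2 h₂
      have h3 : 0 ≤ |(h₂ : ℝ)| ^ (2 * k) := by positivity
      have h4 : 4 ≤ CC k := by unfold CC; linarith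
      calc 4 * |(h₂ : ℝ)| ^ (2 * k) ≤ CC k * |(h₂ : ℝ)| ^ (2 * k) := mul_le_mul_of_nonneg_right h4 h3
        _ ≤ _ := mul_le_mul_of_nonneg_left this (CC_pos hk1).le
    have h3 := div_le_div_of_nonneg_right h2 hN.le
    linarith
  by_cases z2 : h₂ = 0
  · subst z2
    have h1 := WW_le m (aa M h₁) (fun _ => 1) (q0 h₁ z1 hM1) (aa_mono M h₁) (aa_le_one M h₁)
      (fun _ => le_rfl) (fun _ => le_rfl)
    have e : (fun _ : ℕ => 2 * (1 : ℝ) - 1) = fun _ => 1 := by
      funext c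
      norm_num
    rw [e] at h1
    rw [Int.cast_zero, rr_zero, rre h₁]
    have h2 : ∑ j ∈ range m, (1 - aa M (h₁ : ℝ) (m - 1 - j)) * (1 - (1 : ℝ)) = 0 := by simp
    rw [h2, mul_zero, add_zero] at h1
    have h3 := one h₁ z1
    have h4 : 4 * |(h₁ : ℝ)| ^ (2 * k) ≤ CC k * ((1 + (h₁ : ℝ) ^ 2) ^ k * (1 + (0 : ℝ) ^ 2) ^ k) := by
      have e : (1 + (0 : ℝ) ^ 2) ^ k = 1 := by norm_num
      rw [e, mul_one]
      have := w2 h₁
      have h3 : 0 ≤ |(h₁ : ℝ)| ^ (2 * k) := by positivity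
      have h4 : 4 ≤ CC k := by unfold CC; linarith
      calc 4 * |(h₁ : ℝ)| ^ (2 * k) ≤ CC k * |(h₁ : ℝ)| ^ (2 * k) := mul_le_mul_of_nonneg_right h4 h3
        _ ≤ _ := mul_le_mul_of_nonneg_left this (CC_pos hk1).le
    have h5 := div_le_div_of_nonneg_right h4 hN.le
    linarith
  -- both different from zero
  have hx : 0 < |(h₁ : ℝ)| := abs_pos.2 (by exact_mod_cast z1)
  have hy : 0 < |(h₂ : ℝ)| := abs_pos.2 (by exact_mod_cast z2)
  have hy1 : 1 ≤ |(h₂ : ℝ)| := by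
    have : 1 ≤ |h₂| := Int.one_le_abs z2
    exact_mod_cast this
  have h1 := WW_le m (aa M h₁) (aa M h₂) (q0 h₁ z1 hM1) (aa_mono M h₁) (aa_le_one M h₁)
    (aa_mono M h₂) (aa_le_one M h₂)
  rw [rre h₁, rre h₂]
  refine h1.trans ?_
  set x := |(h₁ : ℝ)| with hxd
  set y := |(h₂ : ℝ)| with hyd
  have hxy : x ^ (2 * k) * y ^ (2 * k) ≤ (1 + (h₁ : ℝ) ^ 2) ^ k * (1 + (h₂ : ℝ) ^ 2) ^ k :=
    mul_le_mul (w2 h₁) (w2 h₂) (by positivity) (by positivity)
  have p1 : 1 - aa M h₁ m ≤ 4 * (x ^ (2 * k) * y ^ (2 * k)) / (2 ^ m) ^ (2 * k) := by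
    refine (one h₁ z1).trans ?_
    refine div_le_div_of_nonneg_right ?_ hN.le
    have : 1 ≤ y ^ (2 * k) := Real.one_le_rpow hy1 (by linarith)
    have h3 : 0 ≤ x ^ (2 * k) := by positivity
    nlinarith
  have p2 : ∑ j ∈ range m, (1 - aa M h₁ (m - 1 - j)) * (1 - aa M h₂ j) ≤
      128 * (x ^ (2 * k) * y ^ (2 * k)) / (2 ^ m) ^ (2 * k) * CS k := by
    rcases Nat.eq_zero_or_pos m with hm | hm
    · subst hm
      simp only [range_zero, sum_empty]
      positivity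
    have q1 : ∀ j ∈ range m, (1 - aa M h₁ (m - 1 - j)) * (1 - aa M h₂ j) ≤
        32 * (x * y / 2 ^ (m - 1)) ^ (2 * k) * rho k (4 ^ (m - 1) / x ^ 2) j := by
      intro j hj
      refine term_le hk hk1 hx hy (mem_range.1 hj) (by linarith [aa_le_one M (h₁ : ℝ) (m - 1 - j)])
        (by linarith [aa_nonneg M (h₁ : ℝ) (m - 1 - j)]) ?_ (by linarith [aa_le_one M (h₂ : ℝ) j])
        (by linarith [aa_nonneg M (h₂ : ℝ) j]) ?_
      · rw [div_pow, hxd, sq_abs, ← div_pow]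
        exact aa_ge M (h₁ : ℝ) _
      · rw [div_pow, hyd, sq_abs, ← div_pow]
        exact aa_ge M (h₂ : ℝ) _
    refine (sum_le_sum q1).trans ?_
    rw [← mul_sum]
    have q2 := sum_rho_le hk hk1 (u := 4 ^ (m - 1) / x ^ 2) (by positivity) m
    have q3 : (x * y / 2 ^ (m - 1)) ^ (2 * k) ≤ 4 * (x ^ (2 * k) * y ^ (2 * k)) / (2 ^ m) ^ (2 * k) := by
      have e : x * y / 2 ^ (m - 1) = 2 * (x * y) / 2 ^ m := by
        obtain ⟨m', rfl⟩ : ∃ m', m = m' + 1 := ⟨m - 1, by omega⟩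
        rw [Nat.add_sub_cancel, pow_succ]
        field_simp
      rw [e, Real.div_rpow (by positivity) (by positivity), Real.mul_rpow (by norm_num) (by positivity),
        Real.mul_rpow hx.le hy.le]
      refine div_le_div_of_nonneg_right ?_ hN.le
      refine mul_le_mul_of_nonneg_right ?_ (by positivity)
      calc (2 : ℝ) ^ (2 * k) ≤ 2 ^ (2 : ℝ) := Real.rpow_le_rpow_of_exponent_le (by norm_num) (by linarith)
        _ = 4 := by norm_num
    calc 32 * (x * y / 2 ^ (m - 1)) ^ (2 * k) * ∑ i ∈ range m, rho k (4 ^ (m - 1) / x ^ 2) i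
        ≤ 32 * (x * y / 2 ^ (m - 1)) ^ (2 * k) * CS k := mul_le_mul_of_nonneg_left q2 (by positivity)
      _ ≤ 32 * (4 * (x ^ (2 * k) * y ^ (2 * k)) / (2 ^ m) ^ (2 * k)) * CS k := by
          refine mul_le_mul_of_nonneg_right ?_ hCS.le
          linarith
      _ = _ := by ring
  have p3 : 0 ≤ x ^ (2 * k) * y ^ (2 * k) := by positivity
  calc (1 - aa M h₁ m) + 2 * ∑ j ∈ range m, (1 - aa M h₁ (m - 1 - j)) * (1 - aa M h₂ j)
      ≤ 4 * (x ^ (2 * k) * y ^ (2 * k)) / (2 ^ m) ^ (2 * k) +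
        2 * (128 * (x ^ (2 * k) * y ^ (2 * k)) / (2 ^ m) ^ (2 * k) * CS k) := by linarith
    _ = CC k * (x ^ (2 * k) * y ^ (2 * k)) / (2 ^ m) ^ (2 * k) := by
        unfold CC
        ring
    _ ≤ _ := by
        refine div_le_div_of_nonneg_right ?_ hN.le
        exact mul_le_mul_of_nonneg_left hxy (CC_pos hk1).le

end Pool.Agent.Helper7.ER
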