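import Pool.Agent.Helper7.ER.Scr

/-!
# The pair sum of the Hammersley points
-/

set_option autoImplicit false

noncomputable section

namespace Pool.Agent.Helper7.ER

open Finset

/-- the sum over all digit lists of length `m` -/
def SS : ℕ → (List Bool → ℝ) → ℝ
  | 0, G => G []
  | m + 1, G => SS m (fun w => G (false :: w)) + SS m (fun w => G (true :: w))

theorem SS_congr (m : ℕ) : ∀ {G H : List Bool → ℝ}, (∀ w, w.length = m → G w = H w) → SS m G = SS m H := by
  induction m with
  | zero => intro G H h; exact h [] rfl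
  | succ m ih =>
    intro G H h
    simp only [SS]
    rw [ih (fun w hw => h (false :: w) (by simp [hw])), ih (fun w hw => h (true :: w) (by simp [hw]))]

theorem SS_const (m : ℕ) (c : ℝ) : SS m (fun _ => c) = 2 ^ m * c := by
  induction m with
  | zero => simp [SS]
  | succ m ih =>
    simp only [SS, ih, pow_succ]
    ring

theorem SS_mul_left (m : ℕ) (c : ℝ) : ∀ G : List Bool → ℝ, SS m (fun w => c * G w) = c * SS m G := by
  induction m with
  | zero => intro G; rfl
  | succ m ih =>
    intro G
    simp only [SS]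
    rw [ih, ih, mul_add]

theorem SS_add (m : ℕ) : ∀ G H : List Bool → ℝ, SS m (fun w => G w + H w) = SS m G + SS m H := by
  induction m with
  | zero => intro G H; rfl
  | succ m ih =>
    intro G H
    simp only [SS]
    rw [ih, ih]
    ring

theorem SS_snoc (m : ℕ) : ∀ G : List Bool → ℝ,
    SS (m + 1) G = SS m (fun w => G (w ++ [false])) + SS m (fun w => G (w ++ [true])) := by
  induction m with
  | zero => intro G; rfl
  | succ m ih =>
    intro G
    have h1 : SS (m + 1 + 1) G = SS (m + 1) (fun w => G (false :: w)) + SS (m + 1) (fun w => G (true :: w)) := rfl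
    rw [h1, ih, ih]
    simp only [SS, List.cons_append]
    ring

theorem F_snoc_same (b : Bool) : ∀ (l l' : List Bool) (ρ : ℕ → ℝ), l.length = l'.length →
    F ρ (l ++ [b]) (l' ++ [b]) = F ρ l l' := by
  intro l
  induction l with
  | nil =>
    intro l' ρ h
    have : l' = [] := List.length_eq_zero_iff.1 (by simpa using h.symm)
    subst this
    simp [F]
  | cons a l ih =>
    intro l' ρ h
    rcases l' with _ | ⟨a', l'⟩
    · simp at h
    · simp only [List.cons_append, F]
      rw [ih l' _ (by simpa using h)]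

/-- sum over the lists with a different last digit -/
def PP : ℕ → (ℕ → ℝ) → ℝ
  | 0, ρ => ρ 0
  | m + 1, ρ => 2 ^ m * ρ 0 + PP m (fun c => ρ (c + 1))

theorem SS_PP (m : ℕ) : ∀ (ρ : ℕ → ℝ) (w : List Bool) (b b' : Bool), w.length = m → b ≠ b' →
    SS m (fun w' => F ρ (w.reverse ++ [b]) (w'.reverse ++ [b'])) = PP m ρ := by
  induction m with
  | zero =>
    intro ρ w b b' h hb
    have : w = [] := List.length_eq_zero_iff.1 h
    subst this
    simp [SS, F, PP, hb]
  | succ m ih =>
    intro ρ w b b' h hb
    obtain ⟨v, c, rfl⟩ : ∃ v c, w = v ++ [c] := by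
      rcases List.eq_nil_or_concat w with h0 | ⟨v, c, h0⟩
      · rw [h0] at h; simp at h
      · exact ⟨v, c, by rw [h0, List.concat_eq_append]⟩
    have hv : v.length = m := by simpa using h
    rw [SS_snoc]
    simp only [List.reverse_append, List.reverse_cons, List.reverse_nil, List.nil_append,
      List.cons_append, F]
    rcases c with _ | _
    · simp only [if_true, Bool.false_eq_true, if_false]
      rw [ih _ v b b' hv hb, SS_const]
      simp only [PP]
      ring
    · simp only [if_true, Bool.true_eq_false, if_false]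
      rw [ih _ v b b' hv hb, SS_const]
      simp only [PP]

/-- the pair sum for a fixed first index -/
def WW : ℕ → (ℕ → ℝ) → (ℕ → ℝ) → ℝ
  | 0, _, _ => 1
  | m + 1, ρ, σ => σ 0 * PP m ρ + WW m ρ (fun c => σ (c + 1))

theorem SS_WW (m : ℕ) : ∀ (ρ σ : ℕ → ℝ) (w : List Bool), w.length = m →
    SS m (fun w' => F ρ w.reverse w'.reverse * F σ w w') = WW m ρ σ := by
  induction m with
  | zero =>
    intro ρ σ w h
    have : w = [] := List.length_eq_zero_iff.1 h
    subst this
    simp [SS, F, WW]
  | succ m ih =>
    intro ρ σ w h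
    rcases w with _ | ⟨b, v⟩
    · simp at h
    have hv : v.length = m := by simpa using h
    simp only [SS, List.reverse_cons, F]
    have same : SS m (fun v' => F ρ (v.reverse ++ [b]) (v'.reverse ++ [b]) * F (fun c => σ (c + 1)) v v') =
        WW m ρ (fun c => σ (c + 1)) := by
      rw [← ih ρ _ v hv]
      refine SS_congr m fun w' hw' => ?_
      rw [F_snoc_same b _ _ ρ (by simp [hv, hw'])]
    have diff : ∀ b', b ≠ b' → SS m (fun v' => F ρ (v.reverse ++ [b]) (v'.reverse ++ [b']) * σ 0) =
        σ 0 * PP m ρ := by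
      intro b' hb
      rw [← SS_PP m ρ v b b' hv hb, ← SS_mul_left]
      exact SS_congr m fun w' _ => mul_comm _ _
    rcases b with _ | _
    · simp only [if_true, Bool.false_eq_true, if_false]
      rw [same, diff true (by simp)]
      simp only [WW]
      ring
    · simp only [if_true, Bool.true_eq_false, if_false]
      rw [same, diff false (by simp)]
      simp only [WW]

theorem PP_eq (m : ℕ) : ∀ (a : ℕ → ℝ), PP m (fun c => 2 * a c - a (c + 1)) = 2 ^ m * a 0 + a m - a (m + 1) := by
  induction m with
  | zero => intro a; simp [PP]; ring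
  | succ m ih =>
    intro a
    simp only [PP]
    have := ih (fun c => a (c + 1))
    rw [this]
    ring

/-- bound for the pair sum, both frequencies different from zero -/
theorem WW_le (m : ℕ) : ∀ (a b : ℕ → ℝ), a 0 = 0 → (∀ c, a c ≤ a (c + 1)) → (∀ c, a c ≤ 1) →
    (∀ c, b c ≤ b (c + 1)) → (∀ c, b c ≤ 1) →
    WW m (fun c => 2 * a c - a (c + 1)) (fun c => 2 * b c - b (c + 1)) ≤
      (1 - a m) + 2 * ∑ j ∈ range m, (1 - a (m - 1 - j)) * (1 - b j) := by
  induction m with
  | zero => intro a b h0 _ _ _ _; simp [WW, h0]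
  | succ m ih =>
    intro a b h0 h1 h2 h3 h4
    have h5 := ih a (fun c => b (c + 1)) h0 h1 h2 (fun c => h3 (c + 1)) (fun c => h4 (c + 1))
    simp only [WW]
    rw [PP_eq, h0, mul_zero, zero_add, sum_range_succ']
    have e : ∀ j ∈ range m, (1 - a (m + 1 - 1 - (j + 1))) * (1 - b (j + 1)) =
        (1 - a (m - 1 - j)) * (1 - b (j + 1)) := by
      intro j _
      have : m + 1 - 1 - (j + 1) = m - 1 - j := by omega
      rw [this]
    rw [sum_congr rfl e]
    have e2 : m + 1 - 1 - 0 = m := by omega
    rw [e2]
    have g1 : (2 * b 0 - b (0 + 1)) * (a m - a (m + 1)) ≤ (a m - a (m + 1)) +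
        2 * ((1 - a m) * (1 - b 0)) := by
      have p1 : 0 ≤ a (m + 1) - a m := by linarith [h1 m]
      have p2 : 1 - (2 * b 0 - b (0 + 1)) ≤ 2 * (1 - b 0) := by linarith [h4 (0 + 1)]
      have p3 : 0 ≤ 1 - b 0 := by linarith [h4 0]
      have p4 : a (m + 1) - a m ≤ 1 - a m := by linarith [h2 (m + 1)]
      have p5 : (a (m + 1) - a m) * (1 - (2 * b 0 - b (0 + 1))) ≤ (a (m + 1) - a m) * (2 * (1 - b 0)) :=
        mul_le_mul_of_nonneg_left p2 p1
      have p6 : (a (m + 1) - a m) * (2 * (1 - b 0)) ≤ (1 - a m) * (2 * (1 - b 0)) :=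
        mul_le_mul_of_nonneg_right p4 (by linarith)
      nlinarith
    linarith

/-- the same with the first frequency zero -/
theorem WW_one_left (m : ℕ) : ∀ (b : ℕ → ℝ),
    WW m (fun _ => 1) (fun c => 2 * b c - b (c + 1)) = 1 + 2 ^ m * b 0 - b m := by
  have hP : ∀ m : ℕ, PP m (fun _ => 1) = 2 ^ m := by
    intro m
    induction m with
    | zero => simp [PP]
    | succ m ih =>
      simp only [PP, ih]
      ring
  induction m with
  | zero => intro b; simp [WW]
  | succ m ih =>
    intro b
    simp only [WW]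
    have := ih (fun c => b (c + 1))
    rw [this, hP]
    ring

end Pool.Agent.Helper7.ER
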