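import Pool.Agent.Helper7.ER.Bnd

/-!
# The scrambled Hammersley points: mean square of the character sums
-/

set_option autoImplicit false

noncomputable section

namespace Pool.Agent.Helper7.ER

open Finset

/-- binary digits, least significant first -/
def bits : ℕ → ℕ → List Bool
  | 0, _ => []
  | m + 1, i => decide (i % 2 = 1) :: bits m (i / 2)

theorem bits_length (m : ℕ) : ∀ i, (bits m i).length = m := by
  induction m with
  | zero => intro i; rfl
  | succ m ih => intro i; simp [bits, ih]

theorem sum_two_mul (G : ℕ → ℝ) (N : ℕ) :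
    ∑ i ∈ range (2 * N), G i = ∑ j ∈ range N, (G (2 * j) + G (2 * j + 1)) := by
  induction N with
  | zero => simp
  | succ N ih =>
    have : 2 * (N + 1) = 2 * N + 1 + 1 := by ring
    rw [this, sum_range_succ, sum_range_succ, ih, sum_range_succ]
    ring

theorem sum_bits (m : ℕ) : ∀ G : List Bool → ℝ, ∑ i ∈ range (2 ^ m), G (bits m i) = SS m G := by
  induction m with
  | zero => intro G; simp [SS, bits]
  | succ m ih =>
    intro G
    have h1 : (2 : ℕ) ^ (m + 1) = 2 * 2 ^ m := by ring
    rw [h1, sum_two_mul, sum_add_distrib]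
    simp only [SS]
    rw [← ih, ← ih]
    congr 1
    · refine sum_congr rfl fun j _ => ?_
      have e1 : 2 * j % 2 = 0 := by omega
      have e2 : 2 * j / 2 = j := by omega
      simp [bits, e1, e2]
    · refine sum_congr rfl fun j _ => ?_
      have e1 : (2 * j + 1) % 2 = 1 := by omega
      have e2 : (2 * j + 1) / 2 = j := by omega
      simp [bits, e1, e2]

/-- the character sum of the point set -/
def wch (M m : ℕ) (s : Scr M × Scr M) (u v : ℝ) : ℂ :=
  (∑ i ∈ range (2 ^ m), ex (u * X M s.1 (bits m i).reverse) * ex (v * X M s.2 (bits m i))) / 2 ^ m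

theorem norm_sq_wch (M m : ℕ) (s : Scr M × Scr M) (u v : ℝ) :
    ((‖wch M m s u v‖ ^ 2 : ℝ) : ℂ) = (∑ i ∈ range (2 ^ m), ∑ i' ∈ range (2 ^ m),
      ex (u * (X M s.1 (bits m i).reverse - X M s.1 (bits m i').reverse)) *
        ex (v * (X M s.2 (bits m i) - X M s.2 (bits m i')))) / 4 ^ m := by
  have h1 : ((‖wch M m s u v‖ ^ 2 : ℝ) : ℂ) = wch M m s u v * (starRingEnd ℂ) (wch M m s u v) := by
    rw [Complex.mul_conj']
    push_cast
    rfl
  rw [h1]
  unfold wch
  rw [map_div₀, map_sum, div_mul_div_comm, sum_mul_sum, map_pow, Complex.conj_ofNat]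
  congr 1
  · refine sum_congr rfl fun i _ => sum_congr rfl fun i' _ => ?_
    rw [map_mul, ← ex_neg, ← ex_neg]
    have e1 : u * (X M s.1 (bits m i).reverse - X M s.1 (bits m i').reverse) =
        u * X M s.1 (bits m i).reverse + -(u * X M s.1 (bits m i').reverse) := by ring
    have e2 : v * (X M s.2 (bits m i) - X M s.2 (bits m i')) =
        v * X M s.2 (bits m i) + -(v * X M s.2 (bits m i')) := by ring
    rw [e1, e2, ex_add, ex_add]
    ring
  · rw [← mul_pow]
    norm_num

/-- **the mean square** -/
theorem mean_sq (M m : ℕ) (hm : m ≤ M) (u v : ℝ) :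
    (∑ s : Scr M × Scr M, ‖wch M m s u v‖ ^ 2) / (Fintype.card (Scr M × Scr M) : ℝ) =
      WW m (rr M u) (rr M v) / 2 ^ m := by
  have key : (((∑ s : Scr M × Scr M, ‖wch M m s u v‖ ^ 2) / (Fintype.card (Scr M × Scr M) : ℝ) : ℝ) : ℂ) =
      ((WW m (rr M u) (rr M v) / 2 ^ m : ℝ) : ℂ) := by
    have h0 := card_ne M
    rw [Complex.ofReal_div, Complex.ofReal_sum]
    simp only [norm_sq_wch]
    rw [Fintype.card_prod]
    rw [← sum_div]
    have e1 : ∑ s : Scr M × Scr M, ∑ i ∈ range (2 ^ m), ∑ i' ∈ range (2 ^ m),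
        ex (u * (X M s.1 (bits m i).reverse - X M s.1 (bits m i').reverse)) *
          ex (v * (X M s.2 (bits m i) - X M s.2 (bits m i'))) =
        ∑ i ∈ range (2 ^ m), ∑ i' ∈ range (2 ^ m),
          ((∑ a : Scr M, ex (u * (X M a (bits m i).reverse - X M a (bits m i').reverse))) *
            (∑ b : Scr M, ex (v * (X M b (bits m i) - X M b (bits m i'))))) := by
      rw [sum_comm]
      refine sum_congr rfl fun i _ => ?_
      rw [sum_comm]
      refine sum_congr rfl fun i' _ => ?_
      rw [Fintype.sum_prod_type, sum_mul_sum]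
    rw [e1]
    have e2 : ∀ i i' : ℕ, ((∑ a : Scr M, ex (u * (X M a (bits m i).reverse - X M a (bits m i').reverse))) *
            (∑ b : Scr M, ex (v * (X M b (bits m i) - X M b (bits m i'))))) =
        (Fintype.card (Scr M) : ℂ) * (Fintype.card (Scr M) : ℂ) *
          ((F (rr M u) (bits m i).reverse (bits m i').reverse * F (rr M v) (bits m i) (bits m i') : ℝ) : ℂ) := by
      intro i i'
      have h1 := EE_pair M u (bits m i).reverse (bits m i').reverse (by simp [bits_length])
        (by simp [bits_length, hm])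
      have h2 := EE_pair M v (bits m i) (bits m i') (by simp [bits_length]) (by simp [bits_length, hm])
      unfold EE at h1 h2
      rw [div_eq_iff h0] at h1 h2
      rw [h1, h2]
      push_cast
      ring
    simp only [e2, ← mul_sum]
    have e3 : ∑ i ∈ range (2 ^ m), ∑ i' ∈ range (2 ^ m),
        (F (rr M u) (bits m i).reverse (bits m i').reverse * F (rr M v) (bits m i) (bits m i')) =
        2 ^ m * WW m (rr M u) (rr M v) := by
      have : ∀ i ∈ range (2 ^ m), ∑ i' ∈ range (2 ^ m),
          (F (rr M u) (bits m i).reverse (bits m i').reverse * F (rr M v) (bits m i) (bits m i')) =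
          WW m (rr M u) (rr M v) := by
        intro i _
        rw [sum_bits m (fun w' => F (rr M u) (bits m i).reverse w'.reverse * F (rr M v) (bits m i) w')]
        exact SS_WW m _ _ _ (bits_length m i)
      rw [sum_congr rfl this, sum_const, card_range, nsmul_eq_mul]
      push_cast
      rfl
    have e4 : (∑ i ∈ range (2 ^ m), ∑ i' ∈ range (2 ^ m),
        ((F (rr M u) (bits m i).reverse (bits m i').reverse * F (rr M v) (bits m i) (bits m i') : ℝ) : ℂ)) =
        ((2 ^ m * WW m (rr M u) (rr M v) : ℝ) : ℂ) := by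
      rw [← e3]
      push_cast
      rfl
    rw [e4]
    have e5 : (4 : ℂ) ^ m = 2 ^ m * 2 ^ m := by
      rw [← mul_pow]
      norm_num
    rw [e5]
    push_cast
    field_simp
  exact_mod_cast key

end Pool.Agent.Helper7.ER
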