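import Pool.Agent.SL3.Mlb

/-!
# Nested scrambling of binary digits (for MP_2e2259, e^ran)
-/

set_option autoImplicit false

noncomputable section

namespace Pool.Agent.Helper7.ER

open Finset

/-- scramblings of the binary tree of depth `M` -/
def Scr : ℕ → Type
  | 0 => Unit
  | M + 1 => Bool × Scr M × Scr M

instance scrFin : (M : ℕ) → Fintype (Scr M)
  | 0 => inferInstanceAs (Fintype Unit)
  | M + 1 => by
      have := scrFin M
      exact inferInstanceAs (Fintype (Bool × Scr M × Scr M))

instance scrNon : (M : ℕ) → Nonempty (Scr M)
  | 0 => inferInstanceAs (Nonempty Unit)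
  | M + 1 => by
      have := scrNon M
      exact inferInstanceAs (Nonempty (Bool × Scr M × Scr M))

/-- the mean over all scramblings -/
def EE (M : ℕ) (G : Scr M → ℂ) : ℂ := (∑ s, G s) / (Fintype.card (Scr M) : ℂ)

theorem card_ne (M : ℕ) : (Fintype.card (Scr M) : ℂ) ≠ 0 := by
  exact_mod_cast Fintype.card_ne_zero

theorem EE_const (M : ℕ) (c : ℂ) : EE M (fun _ => c) = c := by
  unfold EE
  rw [sum_const, nsmul_eq_mul, card_univ]
  exact mul_div_cancel_left₀ c (card_ne M)

theorem EE_mul_left (M : ℕ) (c : ℂ) (G : Scr M → ℂ) : EE M (fun s => c * G s) = c * EE M G := by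
  unfold EE
  rw [← mul_sum, mul_div_assoc]

theorem EE_mul_right (M : ℕ) (c : ℂ) (G : Scr M → ℂ) : EE M (fun s => G s * c) = EE M G * c := by
  unfold EE
  rw [← sum_mul, div_mul_eq_mul_div]

theorem EE_succ (M : ℕ) (G : Scr (M + 1) → ℂ) :
    EE (M + 1) G = (EE M (fun s => EE M fun s' => G (false, s, s')) +
      EE M (fun s => EE M fun s' => G (true, s, s'))) / 2 := by
  have hc : (Fintype.card (Scr (M + 1)) : ℂ) = 2 * ((Fintype.card (Scr M) : ℂ) * (Fintype.card (Scr M) : ℂ)) := by
    have : Fintype.card (Scr (M + 1)) = 2 * (Fintype.card (Scr M) * Fintype.card (Scr M)) := by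
      change Fintype.card (Bool × Scr M × Scr M) = _
      rw [Fintype.card_prod, Fintype.card_prod, Fintype.card_bool]
    rw [this]
    push_cast
    ring
  have hs : ∑ s : Scr (M + 1), G s = ∑ s : Scr M, ∑ s' : Scr M, G (false, s, s') +
      ∑ s : Scr M, ∑ s' : Scr M, G (true, s, s') := by
    change ∑ s : Bool × Scr M × Scr M, G s = _
    rw [Fintype.sum_prod_type, Fintype.sum_bool, Fintype.sum_prod_type, Fintype.sum_prod_type, add_comm]
  have h0 := card_ne M
  unfold EE
  rw [hc, hs]
  simp only [← sum_div]
  field_simp

/-- `exp (2 π i t)` -/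
def ex (t : ℝ) : ℂ := Complex.exp ((2 * Real.pi * t : ℝ) * Complex.I)

theorem ex_add (s t : ℝ) : ex (s + t) = ex s * ex t := by
  unfold ex
  rw [← Complex.exp_add]
  congr 1
  push_cast
  ring

theorem ex_zero : ex 0 = 1 := by simp [ex]

theorem ex_neg (t : ℝ) : ex (-t) = (starRingEnd ℂ) (ex t) := by
  unfold ex
  rw [← Complex.exp_conj, map_mul, Complex.conj_I, Complex.conj_ofReal]
  congr 1
  push_cast
  ring

theorem ex_cos (t : ℝ) : ex t + ex (-t) = 2 * (Real.cos (2 * Real.pi * t) : ℂ) := by
  unfold ex
  rw [Complex.ofReal_cos, Complex.cos]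
  push_cast
  ring_nf

/-- the scrambled point: digits `l`, missing digits are `false` -/
def X : (M : ℕ) → Scr M → List Bool → ℝ
  | 0, _, _ => 0
  | M + 1, s, l => ((if xor s.1 (l.headD false) then 1 else 0) +
      X M (if l.headD false then s.2.2 else s.2.1) l.tail) / 2

/-- the mean of `ex (t X)` -/
def D : ℕ → ℝ → ℂ
  | 0, _ => 1
  | M + 1, t => (1 + ex (t / 2)) / 2 * D M (t / 2)

/-- `|D|²` -/
def Q : ℕ → ℝ → ℝ
  | 0, _ => 1
  | M + 1, t => Real.cos (Real.pi * t / 2) ^ 2 * Q M (t / 2)

theorem D_mul_conj (M : ℕ) : ∀ t : ℝ, D M t * (starRingEnd ℂ) (D M t) = (Q M t : ℂ) := by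
  induction M with
  | zero => intro t; simp [D, Q]
  | succ M ih =>
    intro t
    have h1 : (1 + ex (t / 2)) / 2 * (starRingEnd ℂ) ((1 + ex (t / 2)) / 2) =
        ((Real.cos (Real.pi * t / 2) ^ 2 : ℝ) : ℂ) := by
      rw [map_div₀, map_add, map_one, ← ex_neg, Complex.conj_ofNat]
      have h2 : ex (t / 2) * ex (-(t / 2)) = 1 := by
        rw [← ex_add, add_neg_cancel, ex_zero]
      have h3 := ex_cos (t / 2)
      have h4 : Real.cos (2 * Real.pi * (t / 2)) = 2 * Real.cos (Real.pi * t / 2) ^ 2 - 1 := by
        rw [← Real.cos_two_mul]
        congr 1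
        ring
      rw [h4] at h3
      have h5 : (1 + ex (t / 2)) / 2 * ((1 + ex (-(t / 2))) / 2) =
          (1 + (ex (t / 2) + ex (-(t / 2))) + ex (t / 2) * ex (-(t / 2))) / 4 := by ring
      rw [h5, h2, h3]
      push_cast
      ring
    calc D (M + 1) t * (starRingEnd ℂ) (D (M + 1) t) =
        ((1 + ex (t / 2)) / 2 * (starRingEnd ℂ) ((1 + ex (t / 2)) / 2)) *
          (D M (t / 2) * (starRingEnd ℂ) (D M (t / 2))) := by
          simp only [D, map_mul]
          ring
      _ = _ := by
          rw [h1, ih]
          simp only [Q]
          push_cast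
          ring

theorem EE_ex (M : ℕ) : ∀ (t : ℝ) (l : List Bool), EE M (fun s => ex (t * X M s l)) = D M t := by
  induction M with
  | zero =>
    intro t l
    simp only [X, mul_zero, ex_zero, EE_const, D]
  | succ M ih =>
    intro t l
    rw [EE_succ]
    have e : ∀ (b : Bool) (s s' : Scr M), ex (t * X (M + 1) (b, s, s') l) =
        (if xor b (l.headD false) then ex (t / 2) else 1) *
          ex (t / 2 * X M (if l.headD false then s' else s) l.tail) := by
      intro b s s'
      have h1 : t * X (M + 1) (b, s, s') l = (if xor b (l.headD false) then t / 2 else 0) +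
          t / 2 * X M (if l.headD false then s' else s) l.tail := by
        simp only [X]
        split_ifs <;> ring
      rw [h1, ex_add]
      congr 1
      split_ifs
      · rfl
      · exact ex_zero
    simp only [e]
    have h2 : ∀ b : Bool, EE M (fun s => EE M fun s' => (if xor b (l.headD false) then ex (t / 2) else 1) *
          ex (t / 2 * X M (if l.headD false then s' else s) l.tail)) =
        (if xor b (l.headD false) then ex (t / 2) else 1) * D M (t / 2) := by
      intro b
      rcases h : l.headD false with _ | _
      · simp only [Bool.false_eq_true, if_false]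
        have : (fun s : Scr M => EE M fun _ => (if xor b false then ex (t / 2) else 1) *
            ex (t / 2 * X M s l.tail)) = fun s => (if xor b false then ex (t / 2) else 1) *
            ex (t / 2 * X M s l.tail) := by
          funext s
          exact EE_const M _
        rw [this, EE_mul_left, ih]
      · simp only [if_true]
        rw [EE_const, EE_mul_left, ih]
    rw [h2, h2]
    simp only [D]
    rcases l.headD false with _ | _
    · simp
      ring
    · simp
      ring

/-- the kernel of a pair: `c` common digits -/
def rr : ℕ → ℝ → ℕ → ℝ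
  | 0, _, _ => 1
  | M + 1, t, 0 => Real.cos (Real.pi * t) * Q M (t / 2)
  | M + 1, t, c + 1 => rr M (t / 2) c

/-- the value of a pair of digit lists -/
def F : (ℕ → ℝ) → List Bool → List Bool → ℝ
  | ρ, b :: l, b' :: l' => if b = b' then F (fun c => ρ (c + 1)) l l' else ρ 0
  | _, _, _ => 1

theorem EE_pair_nil (M : ℕ) (t : ℝ) (l : List Bool) : EE M (fun s => ex (t * (X M s l - X M s l))) = 1 := by
  simp only [sub_self, mul_zero, ex_zero, EE_const]

theorem EE_pair (M : ℕ) : ∀ (t : ℝ) (l l' : List Bool), l.length = l'.length → l.length ≤ M →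
    EE M (fun s => ex (t * (X M s l - X M s l'))) = (F (rr M t) l l' : ℂ) := by
  induction M with
  | zero =>
    intro t l l' h1 h2
    have : l = [] := List.length_eq_zero_iff.1 (by omega)
    have : l' = [] := List.length_eq_zero_iff.1 (by omega)
    subst l l'
    simp [X, EE_const, ex_zero, F]
  | succ M ih =>
    intro t l l' h1 h2
    rcases l with _ | ⟨b, l⟩
    · have : l' = [] := List.length_eq_zero_iff.1 (by simpa using h1.symm)
      subst l'
      rw [EE_pair_nil]
      simp [F]
    rcases l' with _ | ⟨b', l'⟩
    · simp at h1
    have h1' : l.length = l'.length := by simpa using h1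
    have h2' : l.length ≤ M := by
      simp only [List.length_cons] at h2
      omega
    rw [EE_succ]
    by_cases hb : b = b'
    · subst hb
      have e : ∀ (a : Bool) (s s' : Scr M), ex (t * (X (M + 1) (a, s, s') (b :: l) -
          X (M + 1) (a, s, s') (b :: l'))) =
          ex (t / 2 * (X M (if b then s' else s) l - X M (if b then s' else s) l')) := by
        intro a s s'
        congr 1
        simp only [X, List.headD_cons, List.tail_cons]
        ring
      simp only [e]
      have h3 : EE M (fun s => EE M fun s' => ex (t / 2 * (X M (if b then s' else s) l -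
          X M (if b then s' else s) l'))) = (F (rr M (t / 2)) l l' : ℂ) := by
        rcases b with _ | _
        · simp only [Bool.false_eq_true, if_false, EE_const]
          exact ih _ _ _ h1' h2'
        · simp only [if_true, EE_const]
          exact ih _ _ _ h1' h2'
      rw [h3]
      have h4 : F (rr (M + 1) t) (b :: l) (b :: l') = F (rr M (t / 2)) l l' := by
        simp only [F, if_true]
        rfl
      rw [h4]
      ring
    · have hF : F (rr (M + 1) t) (b :: l) (b' :: l') = Real.cos (Real.pi * t) * Q M (t / 2) := by
        simp only [F, if_neg hb]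
        rfl
      rw [hF]
      -- the two children are independent
      have key : ∀ (ε : ℝ) (l₀ l₁ : List Bool), EE M (fun s => EE M fun s' =>
          ex (t * ((ε + X M s l₀ - X M s' l₁) / 2))) = ex (t / 2 * ε) * (Q M (t / 2) : ℂ) := by
        intro ε l₀ l₁
        have e1 : ∀ s s' : Scr M, ex (t * ((ε + X M s l₀ - X M s' l₁) / 2)) =
            (ex (t / 2 * ε) * ex (t / 2 * X M s l₀)) * ex (-(t / 2) * X M s' l₁) := by
          intro s s'
          rw [← ex_add, ← ex_add]
          congr 1
          ring
        simp only [e1, EE_mul_left, EE_mul_right]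
        rw [EE_ex, EE_ex]
        have e2 : D M (-(t / 2)) = (starRingEnd ℂ) (D M (t / 2)) := by
          have : ∀ (M : ℕ) (u : ℝ), D M (-u) = (starRingEnd ℂ) (D M u) := by
            intro M
            induction M with
            | zero => intro u; simp [D]
            | succ M ih =>
              intro u
              simp only [D, map_mul, map_div₀, map_add, map_one, ← ex_neg, Complex.conj_ofNat, ← ih]
              rw [neg_div]
          exact this M _
        rw [e2, mul_assoc, D_mul_conj]
      have key' : ∀ (ε : ℝ) (l₀ l₁ : List Bool), EE M (fun s => EE M fun s' =>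
          ex (t * ((ε + X M s' l₀ - X M s l₁) / 2))) = ex (t / 2 * ε) * (Q M (t / 2) : ℂ) := by
        intro ε l₀ l₁
        have e1 : ∀ s s' : Scr M, ex (t * ((ε + X M s' l₀ - X M s l₁) / 2)) =
            (ex (t / 2 * ε) * ex (-(t / 2) * X M s l₁)) * ex (t / 2 * X M s' l₀) := by
          intro s s'
          rw [← ex_add, ← ex_add]
          congr 1
          ring
        simp only [e1, EE_mul_left, EE_mul_right]
        rw [EE_ex, EE_ex]
        have e2 : D M (-(t / 2)) = (starRingEnd ℂ) (D M (t / 2)) := by
          have : ∀ (M : ℕ) (u : ℝ), D M (-u) = (starRingEnd ℂ) (D M u) := by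
            intro M
            induction M with
            | zero => intro u; simp [D]
            | succ M ih =>
              intro u
              simp only [D, map_mul, map_div₀, map_add, map_one, ← ex_neg, Complex.conj_ofNat, ← ih]
              rw [neg_div]
          exact this M _
        rw [e2, mul_assoc, mul_comm ((starRingEnd ℂ) _), D_mul_conj]
      have h5 : ex (t / 2) + ex (-(t / 2)) = 2 * (Real.cos (Real.pi * t) : ℂ) := by
        rw [ex_cos]
        congr 3
        ring
      rcases b with _ | _ <;> rcases b' with _ | _
      · exact absurd rfl hb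
      · have e1 : ∀ s s' : Scr M, ex (t * (X (M + 1) (false, s, s') (false :: l) -
            X (M + 1) (false, s, s') (true :: l'))) = ex (t * ((-1 + X M s l - X M s' l') / 2)) := by
          intro s s'
          congr 2
          simp only [X, List.headD_cons, List.tail_cons, Bool.xor_false, Bool.xor_true, Bool.not_false,
            Bool.not_true, Bool.false_eq_true, if_false, if_true]
          ring
        have e2 : ∀ s s' : Scr M, ex (t * (X (M + 1) (true, s, s') (false :: l) -
            X (M + 1) (true, s, s') (true :: l'))) = ex (t * ((1 + X M s l - X M s' l') / 2)) := by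
          intro s s'
          congr 2
          simp only [X, List.headD_cons, List.tail_cons, Bool.xor_false, Bool.xor_true, Bool.not_false,
            Bool.not_true, Bool.false_eq_true, if_false, if_true]
          ring
        simp only [e1, e2]
        rw [key, key]
        have e3 : t / 2 * -1 = -(t / 2) := by ring
        rw [e3, mul_one]
        push_cast at h5 ⊢
        linear_combination (Q M (t / 2) : ℂ) / 2 * h5
      · have e1 : ∀ s s' : Scr M, ex (t * (X (M + 1) (false, s, s') (true :: l) -
            X (M + 1) (false, s, s') (false :: l'))) = ex (t * ((1 + X M s' l - X M s l') / 2)) := by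
          intro s s'
          congr 2
          simp only [X, List.headD_cons, List.tail_cons, Bool.xor_false, Bool.xor_true, Bool.not_false,
            Bool.not_true, Bool.false_eq_true, if_false, if_true]
          ring
        have e2 : ∀ s s' : Scr M, ex (t * (X (M + 1) (true, s, s') (true :: l) -
            X (M + 1) (true, s, s') (false :: l'))) = ex (t * ((-1 + X M s' l - X M s l') / 2)) := by
          intro s s'
          congr 2
          simp only [X, List.headD_cons, List.tail_cons, Bool.xor_false, Bool.xor_true, Bool.not_false,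
            Bool.not_true, Bool.false_eq_true, if_false, if_true]
          ring
        simp only [e1, e2]
        rw [key', key']
        have e3 : t / 2 * -1 = -(t / 2) := by ring
        rw [e3, mul_one]
        push_cast at h5 ⊢
        linear_combination (Q M (t / 2) : ℂ) / 2 * h5
      · exact absurd rfl hb

end Pool.Agent.Helper7.ER
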